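import Pool.Agent.helper41.CL.SpecB

set_option autoImplicit false

namespace Pool.Agent.helper41.CL

open Finset

theorem XI (h1 : SP_stmt) : XI_stmt := by
  intro α _ V E a ha hE
  have hE' : E.filter (fun e => a ∉ e) = E := by
    rw [filter_eq_self]
    intro e he hae
    exact ha ((hE e he).1 hae)
  refine ⟨?_, ?_⟩
  · unfold cov
    rw [powersetCard_zero, powersetCard_zero]
  · intro c
    have h := h1 α (insert a V) E a c (mem_insert_self a V)
    rw [erase_insert ha, hE'] at h
    exact h

end Pool.Agent.helper41.CL
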