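import Pool.Agent.helper47.CL.SpecD

set_option autoImplicit false

namespace Pool.Agent.helper41.CL

open Finset

/-- `2 * choose n 2 = n * (n - 1)` -/
theorem TA_two (n : ℕ) : 2 * n.choose 2 = n * (n - 1) := by
  rw [Nat.choose_two_right]
  exact Nat.mul_div_cancel' (Nat.even_mul_pred_self n).two_dvd

/-- Row TA: the number of edges of the Turan graph with parts of size two and three. -/
theorem TA : TA_stmt := by
  intro q r hq hr
  rw [SimpleGraph.card_edgeFinset_turanGraph]
  obtain ⟨p, rfl⟩ : ∃ p, q = p + 1 := ⟨q - 1, by omega⟩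
  rcases Nat.lt_or_ge r (p + 1) with h | h
  · have hm : (2 * (p + 1) + r) % (p + 1) = r := by
      rw [Nat.mul_comm 2 (p + 1), Nat.mul_add_mod, Nat.mod_eq_of_lt h]
    rw [hm]
    have e1 : (2 * (p + 1) + r) ^ 2 - r ^ 2 = 2 * (p + 1) * (2 * (p + 1 + r)) := by
      have : (2 * (p + 1) + r) ^ 2 = 2 * (p + 1) * (2 * (p + 1 + r)) + r ^ 2 := by ring
      omega
    rw [e1, Nat.add_sub_cancel, Nat.mul_assoc (2 * (p + 1)),
      Nat.mul_div_cancel_left _ (by omega : 0 < 2 * (p + 1))]
    have h1 := TA_two (2 * (p + 1) + r)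
    have h2 := TA_two r
    have h3 : 2 * (p + 1) + r - 1 = 2 * p + 1 + r := by omega
    rw [h3] at h1
    rcases r with _ | s
    · simp only [Nat.add_zero, Nat.mul_zero, Nat.zero_sub] at h1 h2 ⊢
      nlinarith
    · rw [Nat.add_sub_cancel] at h2
      nlinarith
  · have hr' : r = p + 1 := by omega
    subst hr'
    have hm : (2 * (p + 1) + (p + 1)) % (p + 1) = 0 := by
      have : 2 * (p + 1) + (p + 1) = (p + 1) * 3 := by ring
      rw [this, Nat.mul_mod_right]
    rw [hm]
    have e1 : ((2 * (p + 1) + (p + 1)) ^ 2 - 0 ^ 2) * (p + 1 - 1) =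
        2 * (p + 1) * (9 * (p + 1).choose 2) := by
      have h2 := TA_two (p + 1)
      rw [Nat.add_sub_cancel] at h2
      have : ((2 * (p + 1) + (p + 1)) ^ 2 - 0 ^ 2) = 9 * (p + 1) ^ 2 := by
        simp only [ne_eq, OfNat.ofNat_ne_zero, not_false_eq_true, zero_pow, Nat.sub_zero]
        ring
      rw [this, Nat.add_sub_cancel]
      have h4 : 2 * (p + 1) * (9 * (p + 1).choose 2) = 9 * (p + 1) * (2 * (p + 1).choose 2) := by
        ring
      rw [h4, h2]
      ring
    rw [e1, Nat.mul_div_cancel_left _ (by omega : 0 < 2 * (p + 1))]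
    have h1 := TA_two (2 * (p + 1) + (p + 1))
    have h2 := TA_two (p + 1)
    have h3 : 2 * (p + 1) + (p + 1) - 1 = 3 * p + 2 := by omega
    rw [h3] at h1
    rw [Nat.add_sub_cancel] at h2
    have h5 : (0 : ℕ).choose 2 = 0 := rfl
    rw [h5]
    nlinarith

end Pool.Agent.helper41.CL
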